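import Pool.Agent.BEG.Stmts

set_option autoImplicit false

/-!
# Row TXK (squad BEG, MP_be01ff_an): the approximate solution in the full space
-/

namespace Pool.Agent.BEG.H62

open Set Filter Topology MeasureTheory
open scoped InnerProductSpace
open Pool.Agent.BEN Pool.Agent.BEG

theorem txk : TxkStmt := by
  intro X X' H _ _ _ _ _ _ W W' i K s p a0 k t1 b N1 c C w r g hR hT
  let I : X' →L[ℝ] X := LinearMap.mkContinuous i.toLinearMap 1 (fun x => by
    rw [one_mul]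
    exact (hR.nrm x).le)
  have hI : ∀ x, I x = i x := fun x => rfl
  refine ⟨hT.t1_le, hT.c_pos, ?_, ?_, ?_, ?_, ?_, ?_, ?_, ?_, ?_, ?_, ?_⟩
  · intro j hj t ht
    exact I.hasFDerivAt.comp_hasDerivAt t (hT.w_der j hj t ht)
  · exact I.continuous.comp_continuousOn hT.w_cont
  · intro j hj t ht
    show ‖i (w j t)‖ ≤ _
    rw [hR.nrm]
    exact hT.w_le j hj t ht
  · intro j hj t ht
    exact I.hasFDerivAt.comp_hasDerivAt t (hT.r_der j hj t ht)
  · exact I.continuous.comp_continuousOn hT.r_cont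
  · intro j hj t ht
    show ‖i (r j t)‖ ≤ _
    rw [hR.nrm]
    exact hT.r_le j hj t ht
  · intro t ht
    obtain ⟨y, hy⟩ := hT.w_SX t ht
    refine ⟨i y, ?_⟩
    show i (w 0 t) = W.SX (i y)
    rw [hy, hR.SX]
  · exact I.continuous.comp_continuousOn hT.g_cont
  · intro t ht
    have h := I.hasFDerivAt.comp_hasDerivAt t (hT.g_der t ht)
    have e : (fun r => W.SX (i (g r))) = fun r => I (W'.SX (g r)) := by
      funext r
      rw [hI, hR.SX]
    show HasDerivAt (fun r => W.SX (i (g r))) (i (w 0 t)) t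
    rw [e]
    exact h
  · intro t ht
    show i (r 0 t) = i (w 1 t) + i (g t) + a0 • (i (w 0 t) ^ (2 * p + 1))
    rw [hT.res t ht, map_add, map_add, map_smul, map_pow]
  · intro t ht
    show c * t ^ (-(1 / (p : ℝ))) ≤ ‖W.e (i (w 0 t))‖ ^ 2 + ‖W.R (W.e (i (g t)))‖ ^ 2 ∧
      ‖W.e (i (w 0 t))‖ ^ 2 + ‖W.R (W.e (i (g t)))‖ ^ 2 ≤ C * t ^ (-(1 / (p : ℝ)))
    rw [hR.e, hR.e, ← hR.R]
    exact hT.en t ht

end Pool.Agent.BEG.H62
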